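import Pool.Agent.Q57.MD.Rows

/-!
# The strong monodromy conjecture for polynomials built from cones

We prove Q1 and Q2 for the polynomials of classes which are closed under several operations.

A *tuple* is a family `f = (f_1, …, f_r)` of polynomials in `x_1, …, x_n`. A *chart* for `f` consists of
polynomials `a_1, …, a_c, w` and of a tuple `h` in `c` variables such that the `f_j` and the
`h_k(a_1/w, …, a_c/w)` generate the same ideal of `ℂ[x]_w`; the point `p` is in the chart if `w(p) ≠ 0`,
`a_t(p) = 0` for all `t`, and a given `c × c` minor of the Jacobian matrix of the `a_t` does not vanish at
`p`. So at `p` the `g_t = a_t/w` are a part of a system of local coordinates, and the scheme `{f = 0}` is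
there the product of the germ of `{h = 0}` at the origin with a smooth factor.

The class `Tower false` of germs at the origin and its subclass `Tower true` are the smallest classes with:

* *sparse* tuples: the tuples `f_i = ∑_(π j = i) c_j x ^ (m_j)`, `c_j ≠ 0`, the vectors `(m_j, e_(π j))`
  being linearly independent, are in `Tower false` (for instance the generators of all monomial ideals,
  with any coefficients, and the polynomials with affinely independent exponents);
* (both classes) *relative cones*: let the `f_j` be forms of the same degree `d > 0` in the variables
  `x_i`, `i ∈ T`, with polynomials in the other variables as coefficients, such that `|T|` of them are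
  algebraically independent over the other variables, or that `d ≥ 2` and the relations between the
  derivatives `∂_i F`, `i ∈ T`, of a combination `F ≠ 0` of the `f_j` are the trivial ones (if `T` is
  the set of all variables, this means that `F` has an isolated singularity), or that `-|T|/d` is known
  to be a root of the local `b`-functions. If every common zero `p ≠ 0` with `p_i = 0` for all `i ∉ T`
  is in one of finitely many charts with tuples `h` of the class, `f` is in the class;
* (both classes) *products* `f_i(x) g_j(y)` of two tuples of the class;
* (both classes) *hypersurfaces*: with `f` the class contains the polynomial `∑ y_j f_j(x)`;
* (only for `Tower true`) *sums*: with `f` and `g` the class contains the tuple `f_i(x), g_j(y)` in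
  disjoint sets of variables, which generates the sum of the ideals;
* (both classes) *formal coordinates*: the class contains every tuple `f` which generates in `ℂ[[x]]` the
  same ideal as `h_k(g_1, …, g_c)`, where `h` is a tuple of the class and `g_1, …, g_c` is a part of a
  system of formal coordinates.

The classes `Glob B` consist of the tuples whose zero set is covered by finitely many charts with tuples of
the class `Tower B`, of the relative cones whose zeros with `p_i ≠ 0` for some `i ∈ T` are covered in this
way, of their products, hypersurfaces `∑ y_j f_j` and (for `B = true`) sums, again and again.

Examples. (1) The tuples `(x_1), (x_1 ^ k)`, all smooth germs, the forms with isolated singularities, and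
the forms of a large degree in the ideal of a smooth projective scheme (see below) are in `Tower true`. So
are the ideals `(f_1(x), f_2(y), …)`, the products and the hypersurfaces `∑ y_j f_j(x)` made of them, again
and again, and the families of cones over them.

(2) Let `Z` be a closed subscheme of `ℙ ^ (n-1)` whose cone is covered by charts of the class (`Z` is smooth,
or locally the product of a smooth factor and a germ of the class, as the determinantal schemes, or schemes
with singularities which are cones over such schemes). If the ideal of `Z` is generated in the degrees
`≤ d₀` and `d > d₀`, the forms of degree `d` in the ideal are a cone of the class: with one form `g` of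
degree `d - 1` there are the forms `x_1 g, …, x_n g`, which are algebraically independent.

Method. The arcs with origin in the set of the points of one chart are the product of the jets of `h` at
the origin and of free jets, for all orders at the same time; this gives the motivic zeta function of a
relative cone, by the multiplicities in the direction of `T` of an arc whose origin has `p_i = 0` for
`i ∈ T`, and the new pair is `(-|T|, d)`. The root `-|T|/d` of the Bernstein-Sato polynomial comes from a
Rees valuation of the ideal if `|T|` of the forms are independent; and if the relations between the
derivatives of `F` are trivial, `F ^ (-|T|/d)` is not a sum of derivatives of elements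
`g F ^ (-|T|/d - k)`, but this is what a functional equation whose polynomial does not vanish at `-|T|/d`
would give. For sums one uses the volumes of the sets `{ord ≥ k}`, whose generating series are closed
under the Hadamard product. If `α` is a root of all local `b`-functions of `h`, it is a root of the local
`b`-functions of `f` at all points of the chart: a functional equation for `f` with power series
coefficients is restricted to a transversal slice, and other generators of the same ideal have the same
`b`-functions.
-/

set_option autoImplicit false

namespace Pool.Agent.Results.MP_b07157_ag.ConeTowers

open MvPolynomial Pool.Agent.Q57.MD
open Pool.Agent.W375.MG (zetaOrd IsPole)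
open Pool.Agent.H628R4.TP (IsBFunction IsLocalBFunction)

/-- **Q1 for the polynomials of the class `Glob false`, and Q2 for those of the class `Tower false`.**

First part: every pole of the motivic zeta function of `F`, `F` in the class `Glob false`, is a root of
every `b` with `b(s) F ^ s = P(s) F ^ (s + 1)`, `P(s)` in the Weyl algebra, polynomial in `s` (for instance `b = b_F`).
Second part: every pole of the local motivic zeta function of `F` at the origin, `F` in `Tower false`,
`F(0) = 0`, is a root of every `b` with `b(s) F ^ s = P(s) F ^ (s + 1)`, where `P(s)` is a differential
operator with formal power series coefficients, polynomial in `s` (for instance `b = b_{F,0}`).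
`zetaOrd F W` is the naive motivic zeta function of Denef and Loeser for the arcs with origin in `W`, and
a pole is defined as in the problem. -/
theorem result :
    (∀ (n : ℕ) (F : MvPolynomial (Fin n) ℂ), (Glob false n 1 fun _ => F) → ∀ s₀ : ℚ,
      IsPole (zetaOrd F Set.univ) s₀ → ∀ b : Polynomial ℂ, IsBFunction F b →
        b.eval (s₀ : ℂ) = 0) ∧
    ∀ (n : ℕ) (F : MvPolynomial (Fin n) ℂ), (Tower false n 1 fun _ => F) → eval 0 F = 0 → ∀ s₀ : ℚ,
      IsPole (zetaOrd F {0}) s₀ → ∀ b : Polynomial ℂ, IsLocalBFunction F b →
        b.eval (s₀ : ℂ) = 0 :=
  ⟨fun _ _ h s₀ hs b hb => global_pole h s₀ hs b hb,
    fun _ _ h h0 s₀ hs b hb => local_pole h h0 s₀ hs b hb⟩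

end Pool.Agent.Results.MP_b07157_ag.ConeTowers
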