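import Pool.Agent.Q57.QM.All

/-!
# The strong monodromy conjecture, motivic version, for hypersurfaces built from plane ideals and
systems of quadrics

We prove Q1 and Q2 for a class of polynomials which is closed under several operations.

A *tuple* is a family `f = (f_1, …, f_r)` of polynomials in `x_1, …, x_n`. A *chart* for `f` consists of
polynomials `a_1, …, a_c, w` and of a tuple `h` in `c` variables such that the `f_j` and the
`h_k(a_1/w, …, a_c/w)` generate the same ideal of `ℂ[x]_w`; the point `p` is in the chart if `w(p) ≠ 0`,
`a_t(p) = 0` for all `t`, and a given `c × c` minor of the Jacobian matrix of the `a_t` does not vanish at
`p`. So at `p` the `a_t/w` are a part of a system of local coordinates, and the scheme `{f = 0}` is there the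
product of the germ of `{h = 0}` at the origin with a smooth factor.

The class. `QC k b n r f`, `k = cov, glob, germ`, `b = true, false`, are the smallest classes with:
* `QC cov true` contains **all ideals of `ℂ[x, y]`**, **all ideals which are generated by polynomials of
  degree at most two in three variables** (arbitrary systems of quadrics), all ideals of subschemes of smooth
  surfaces of degree two (`QuadSys`: every common zero is a smooth point of a surface `f_j = 0` with
  `deg f_j ≤ 2`, the other `f_j` are arbitrary), and **all ideals which are generated by quadratic forms in
  four variables** (all these ideals are nonzero);
* *cones*: let the `f_j` be forms of degree `d > 0` in `n + 1` variables whose charts `x_i = 1` are in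
  `QC cov b`, such that `n + 1` of the `f_j` are algebraically independent, or that `d ≥ 2` and the
  relations between the derivatives of a combination `F ≠ 0` of the `f_j` are the trivial ones (so `F` has an
  isolated singularity), or that `-(n + 1)/d` is known to be a root of the local `b`-functions at the
  origin; then `f` is in `QC cov b`;
* *products* `f_i(x) g_j(y)`, and, for `b = true`, *sums* `(f_i(x), g_j(y))`, in disjoint sets of
  variables (all `k`);
* *charts*: `QC cov b` contains the tuples all of whose zeros are in finitely many charts with tuples `h`
  whose germs at the origin are in `QC germ b`;
* `QC cov b` is contained in `QC glob b` and in `QC germ b`, and `true` implies `false`;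
* *hypersurfaces*: with `f` the classes `QC glob b`, `QC germ b` contain the polynomial `∑ y_j f_j(x)`;
* *formal coordinates*: `QC germ b` contains every tuple `f` which generates in `ℂ[[x]]` the same ideal as
  `h_k(g_1, …, g_c)`, where `h` is in `QC germ b` and `g_1, …, g_c` is a part of a system of formal coordinates.

Examples. (1) `F = ∑ y_j q_j(x)` for arbitrary polynomials `q_j` of degree at most two in three variables, or
arbitrary quadratic forms in four variables. (The starting theorems `TrilinearReduction` reduce the conjecture
for all polynomials to the polynomials `∑ y_j q_j(x)`, `q_j` quadratic forms in `n` variables, for all `n`.)
(2) Forms of the same degree in three variables (cones over ideals of the plane) of which three are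
algebraically independent, for example all forms of degree `d > d₀` in an ideal generated in degrees `≤ d₀`;
the same for forms in four variables whose charts are systems of quadrics, or ideals of subschemes of smooth
quadric surfaces, or sums of ideals in disjoint variables; cones over such cones.
(3) Sums, products (in disjoint sets of variables) and the polynomials `∑ y_j f_j` of all these, again and
again; for germs at the origin also everything which has this form in formal coordinates.

Method. `PM f` is the statement for the germ of `f` at the origin: the motivic volumes of the sets of the arcs
on which the ideal has the order `≥ N` have a rational generating series whose denominator only has factors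
which belong to roots of all local functional equations.
* It holds for all ideals of the plane: this is proved by a tree of point blow-ups in the motivic measure
  (`vo`, the volumes of the sets of arcs given by constructible conditions on finitely many coefficients); the
  exceptional curves which are not Rees divisors and which meet only two other curves cancel.
* It is compatible with changes of coordinates, products, sums (Hadamard product of the volumes; roots:
  Thom-Sebastiani for ideals), with `∑ y_j f_j`, and with cones (root `-(n+1)/d` from a Rees valuation or from
  twisted de Rham cohomology).
* At a point of a smooth surface `q = 0` of degree two there are coordinates `q, u, v`, where `u`, `v` come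
  from the projection from a point of the surface or of the plane at infinity. They are rational functions
  whose inverse is rational on `q = 0`; so the ideal is locally `(q, h_j(u, v))`, a sum of ideals in disjoint
  variables. The inverse is only used to find the equations `h_j` of the charts.
* At a point at which all `f_j` are singular they are quadratic forms in three variables. Linear systems of
  singular conics have a common vertex, or are of the form `x L`. In the other cases some combination is a
  nonsingular form, and its derivatives have only the trivial relations, which gives the root `-3/2`.
* Quadratic forms in four variables: linear systems of singular forms without a common vertex are contained in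
  `x L + K w²`; then either they are the products of a linear form with three others, or the ideal is
  `(x, w²)` near some point, which gives the root `-2 = -4/2` of the exceptional divisor of the vertex.
-/

set_option autoImplicit false

namespace Pool.Agent.Results.MP_b07157_ag.QuadricSystems

open MvPolynomial Pool.Agent.Q57.QM
open Pool.Agent.W375.MG (IsPole zetaOrd)
open Pool.Agent.H628R4.TP (IsBFunction IsLocalBFunction)

/-- **Q1 for the polynomials of the class `QC glob false`, and Q2 for those of the class `QC germ false`.**

First part: every pole of the motivic zeta function of `F`, `F` in the class `QC glob false`, is a root of
every `b` with `b(s) F ^ s = P(s) F ^ (s + 1)`, `P(s)` in the Weyl algebra, polynomial in `s` (for instance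
`b = b_F`). Second part: every pole of the local motivic zeta function of `F` at the origin, `F` in
`QC germ false`, `F(0) = 0`, is a root of every `b` with `b(s) F ^ s = P(s) F ^ (s + 1)`, where `P(s)` is a
differential operator with formal power series coefficients, polynomial in `s` (for instance `b = b_{F,0}`).
`zetaOrd F W` is the naive motivic zeta function of Denef and Loeser for the arcs with origin in `W`, and
a pole is defined as in the problem. -/
theorem result :
    (∀ (n : ℕ) (F : MvPolynomial (Fin n) ℂ), (QC .glob false n 1 fun _ => F) → ∀ s₀ : ℚ,
      IsPole (zetaOrd F Set.univ) s₀ → ∀ b : Polynomial ℂ, IsBFunction F b →
        b.eval (s₀ : ℂ) = 0) ∧
    ∀ (n : ℕ) (F : MvPolynomial (Fin n) ℂ), (QC .germ false n 1 fun _ => F) → eval 0 F = 0 →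
      ∀ s₀ : ℚ, IsPole (zetaOrd F {0}) s₀ → ∀ b : Polynomial ℂ, IsLocalBFunction F b →
        b.eval (s₀ : ℂ) = 0 :=
  ⟨fun _ _ h s₀ hs b hb => global_pole (qc_glob steps h) s₀ hs b hb,
    fun _ _ h h0 s₀ hs b hb => local_pole (qc_germ steps h) h0 s₀ hs b hb⟩

end Pool.Agent.Results.MP_b07157_ag.QuadricSystems
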