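import Pool.Agent.Q223.MM.Red

/-!
# The motivic strong monodromy conjecture: reduction to trilinear polynomials with mild singularities

A *program* consists of a forest on the nodes `0, …, κ - 1` (`o m` is the parent of the node `m`, and
comes before `m`; `o m = none` for the roots), of a label `v m ∈ {1, …, n}` for every node and of a
coefficient `c m`. Its polynomial is

`F = ∑_m c_m z_m + ∑_m y_m (z_m - z_(o m) x_(v m))`  (with `z_none = 1`),

which is linear in each of the three groups of variables `x`, `y`, `z`, and has at most four monomials
per node. The conjecture Q1 (every pole of the motivic zeta function `Z_f^mot` is a root of the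
Bernstein-Sato polynomial `b_f`) for all nonconstant `f ∈ ℂ[x_1, …, x_n]` with `f(0) = 0` is equivalent to
its case of the polynomials of programs whose minimal exponent is larger than any given `N`. If the
coefficients of `f` are in the additive group generated by a set `S` (which contains `1`), the
coefficients `c_m` can be taken from `S ∪ -S ∪ {0}`. In particular the conjecture for `f ∈ ℤ[x]` is
equivalent to the conjecture for such `F` with coefficients `0`, `1`, `-1`.

Method. Horner's scheme of `f` along a forest gives an automorphism of the polynomial ring which takes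
`f(x) + ∑ y_m z_m` to `F`, and there are such schemes for every large number `κ` of nodes. The addition
of `κ` planes `y z` shifts the roots of `b_f(s) / (s + 1)` by `- κ`; the classes of the jets of
`f + ∑ y_m z_m` determine those of `f` (relations in the Grothendieck ring from the starting library
`Y229.MS`, where they were used to prove the conjecture for polynomials which become sparse); two
consecutive values of `κ` are used, and two pairs of them, because `-1` is always a root.
-/

set_option autoImplicit false

namespace Pool.Agent.Results.MP_b07157_ag.TrilinearReduction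

open MvPolynomial Pool.Agent.Q223.MM
open Pool.Agent.W428.MOT (Pt Constr)

/-- **Q1 is equivalent to its case of the trilinear polynomials of programs with minimal exponent
larger than `N`.**

`StrongOn f W`: every pole `s₀` of the motivic zeta function `zetaOrd f W` of `f` for the arcs with
origin in `W` satisfies `b(s₀) = 0` for every `b` with `b(s) f ^ s = P(s) f ^ (s + 1)`, `P(s)` in the
Weyl algebra, polynomial in `s` (for instance `b = b_f`). For `W = Set.univ` this is the conjecture
Q1 for `f`. `MinExp N F`: there is `c ≠ 0` such that `(s + 1) c(s)` satisfies such a functional equation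
for `F`, and the roots of `c` have real part `< -N`; so the minimal exponent of `F` is larger than `N`.

`Forest o`: `o m = some m'` implies `m' < m`. `prog o v c` is the polynomial
`∑ c_m z_m + ∑ y_m (z_m - z_(o m) x_(v m))`, `z_none = 1`. `t ∈ coeffs S`: `t = 0` or `t ∈ S` or `-t ∈ S`.

First part: for every `f` and `N` there are programs with `κ`, `κ + 1`, `κ + 2`, … nodes whose
polynomials have minimal exponent larger than `N`, such that the conjecture for the first four of them
implies the conjecture for `f`; and the same for the arcs with origin in a constructible set `W`, with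
constructible sets `W'`, which are the whole spaces if `W` is.
Second part: the equivalence. -/
theorem result (S : Set ℂ) (hS : (1 : ℂ) ∈ AddSubgroup.closure S) (N : ℕ) :
    (∀ (n : ℕ) (f : MvPolynomial (Fin n) ℂ), f.totalDegree ≠ 0 → eval 0 f = 0 →
      (∀ d, coeff d f ∈ AddSubgroup.closure S) →
      ∃ κ : ℕ, 0 < κ ∧ ∃ (o : ∀ j : ℕ, Fin (κ + j) → Option (Fin (κ + j)))
        (v : ∀ j : ℕ, Fin (κ + j) → Fin n) (c : ∀ j : ℕ, Fin (κ + j) → ℂ),
        (∀ j, Forest (o j) ∧ (∀ m, c j m ∈ coeffs S) ∧ MinExp N (prog (o j) (v j) (c j))) ∧
        ∀ W : Set (Pt ℂ (Fin n)), Constr W →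
          ∃ W' : ∀ j : ℕ, Set (Pt ℂ (Fin (n + (κ + j + (κ + j))))),
            (∀ j, Constr (W' j)) ∧ (W = Set.univ → ∀ j, W' j = Set.univ) ∧
            ((∀ j < 4, StrongOn (prog (o j) (v j) (c j)) (W' j)) → StrongOn f W)) ∧
    ((∀ (n : ℕ) (f : MvPolynomial (Fin n) ℂ), f.totalDegree ≠ 0 → eval 0 f = 0 →
        (∀ d, coeff d f ∈ AddSubgroup.closure S) → StrongOn f Set.univ) ↔
      ∀ (n κ : ℕ) (o : Fin κ → Option (Fin κ)) (v : Fin κ → Fin n) (c : Fin κ → ℂ), 0 < κ →
        Forest o → (∀ m, c m ∈ coeffs S) → MinExp N (prog o v c) →
        StrongOn (prog o v c) Set.univ) := by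
  have hu : ∀ n : ℕ, Constr (Set.univ : Set (Pt ℂ (Fin n))) := fun n => by
    have := Constr.zero (K := ℂ) (ι := Fin n) 0
    simpa using this
  refine ⟨fun n f hf h0 hfS => reduce_one S hS N n f hf h0 hfS, ?_, ?_⟩
  · intro h n κ o v c hκ _ hc _
    exact h _ (prog o v c) (prog_deg o v c hκ) (prog_eval o v c) fun d => prog_coeff hS o v c hc d
  · intro h n f hf h0 hfS
    obtain ⟨κ, hκ, o, v, c, h1, h2⟩ := reduce_one S hS N n f hf h0 hfS
    obtain ⟨W', -, h3, h4⟩ := h2 Set.univ (hu n)
    refine h4 fun j _ => ?_
    rw [h3 rfl j]
    exact h n (κ + j) (o j) (v j) (c j) (by omega) (h1 j).1 (h1 j).2.1 (h1 j).2.2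

end Pool.Agent.Results.MP_b07157_ag.TrilinearReduction
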