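import Pool.Agent.Q42.CU.Mot

/-!
# The strong monodromy conjecture: reduction to sums of cubes over triple systems

A *triple system* consists of subsets `E_1, …, E_r` of `{1, …, k}` with three elements or with one
element and of constants `c_1, …, c_r`, where `c_j = 0` if `E_j` has three elements. Its polynomial is

`Φ = (z_1 ^ 3 + ⋯ + z_k ^ 3) / 24 + ∑_j y_j (∑_{i ∈ E_j} z_i - c_j)`.

Every polynomial `f ∈ ℂ[x_1, …, x_n]` is stably equivalent to such a `Φ`: for all large `κ` there is an
isomorphism of polynomial rings which takes `f + u_1 v_1 + ⋯ + u_κ v_κ` to the polynomial of a triple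
system. If the coefficients of `f` are in the `ℚ`-vector space spanned by a set `S ∋ 1`, the `c_j ≠ 0` can
be taken to be different elements of `S`; so for `f ∈ ℚ[x]` there is one constant `1` and all others
are `0`, that is, `Φ` is given by a 3-uniform hypergraph with some marked vertices. We deduce that the
strong monodromy conjecture Q1 (motivic zeta function) for all `f` over `ℂ` (over `ℚ`) is equivalent to the
conjecture for the polynomials `Φ` of triple systems (with one constant `1`), and that only the `Φ` with
minimal exponent larger than any given `N` have to be considered. This is the analogue of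
Drużkowski's theorem on the Jacobian conjecture.

Method. Horner's scheme of `f` along a forest (our hand-in TrilinearReduction) makes `f` trilinear. The
products of three variables or constants are sums of cubes of linear forms `± a ± b ± c`; every linear
form which occurs is computed step by step, each step being an equation `z + z' + z'' = 0`, and the
cubes of the auxiliary forms are cancelled by the cubes of their negatives. The equations have an
invertible (unitriangular) matrix, and so an automorphism takes `f + ∑ u_m v_m` to `Φ`; the variables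
`y_j` are the Lagrange multipliers of the equations. Constants are moved by
`(u + 1) (v - a) = u v - a u + v - a`, and denominators are removed by `x_i ↦ D x_i`. The relation between
the motivic zeta functions of `f` and `f + u v` is the one of TrilinearReduction; it is used for four
consecutive numbers of planes.
-/

set_option autoImplicit false

namespace Pool.Agent.Results.MP_b07157_ag.TripleSystems

open MvPolynomial Pool.Agent.Q223.MM Pool.Agent.Q42.CU
open Pool.Agent.H628R4.TP (IsBFunction)

/-- **Q1 is equivalent to its case of the polynomials of triple systems with minimal exponent larger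
than `N`.**

`Phi 24⁻¹ E c` is the polynomial `(∑ z_i ^ 3) / 24 + ∑_j y_j (∑_{i ∈ E j} z_i - c j)`. `IsTriple S E c`: every
`E j` has three elements and `c j = 0`, or one element and `c j = 0` or `c j ∈ S`; and the `c j` which are
not zero are different. `StEq f κ F`: `F` has `n + 2 κ` variables and an isomorphism of polynomial rings
takes `f + ∑_{m < κ} u_m v_m` to `F`.

`StrongOn f Set.univ`: every pole `s₀` of the motivic zeta function of `f` satisfies `b(s₀) = 0` for
every `b` with `b(s) f ^ s = P(s) f ^ (s + 1)` (`IsBFunction f b`), `P(s)` in the Weyl algebra, polynomial in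
`s` (for instance `b = b_f`). `MinExp N F`: there is `c ≠ 0` such that `(s + 1) c(s)` satisfies such a
functional equation for `F`, and the roots of `c` have real part `< -N`; so the minimal exponent of `F` is
larger than `N`.

First part: every nonconstant `f` with coefficients in the `ℚ`-span of `S ∋ 1` is stably equivalent to
the polynomials of triple systems, for all large numbers `κ` of planes; they have minimal exponent
larger than `N` (as `f` has a Bernstein-Sato polynomial), and the conjecture for four of them
(`κ`, `κ + 1`, `κ + 2`, `κ + 3`) implies the conjecture for `f`.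
Second part: the equivalence. For `S = Set.univ` it is about all `f` with `f(0) = 0`, for `S = {1}`
about all `f` with rational coefficients. -/
theorem result (S : Set ℂ) (hS : (1 : ℂ) ∈ S) (N : ℕ) :
    (∀ (n : ℕ) (f : MvPolynomial (Fin n) ℂ), f.totalDegree ≠ 0 →
      (∀ d, coeff d f ∈ Submodule.span ℚ S) →
      ∃ κ₁ : ℕ, ∀ κ, κ₁ ≤ κ → ∃ (k r : ℕ → ℕ) (E : ∀ j, Fin (r j) → Finset (Fin (k j)))
        (c : ∀ j, Fin (r j) → ℂ),
        (∀ j, 0 < k j ∧ IsTriple S (E j) (c j) ∧ StEq f (κ + j) (Phi 24⁻¹ (E j) (c j)) ∧
          ((∃ b : Polynomial ℂ, b ≠ 0 ∧ IsBFunction f b) → MinExp N (Phi 24⁻¹ (E j) (c j)))) ∧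
        ((∀ j < 4, StrongOn (Phi 24⁻¹ (E j) (c j)) Set.univ) → StrongOn f Set.univ)) ∧
    ((∀ (n : ℕ) (f : MvPolynomial (Fin n) ℂ), f.totalDegree ≠ 0 → eval 0 f = 0 →
        (∀ d, coeff d f ∈ Submodule.span ℚ S) → StrongOn f Set.univ) ↔
      ∀ (k r : ℕ) (E : Fin r → Finset (Fin k)) (c : Fin r → ℂ), 0 < k → IsTriple S E c →
        MinExp N (Phi 24⁻¹ E c) → StrongOn (Phi 24⁻¹ E c) Set.univ) := by
  have key : ∀ (n : ℕ) (f : MvPolynomial (Fin n) ℂ), f.totalDegree ≠ 0 →
      (∀ d, coeff d f ∈ Submodule.span ℚ S) →
      ∃ κ₁ : ℕ, ∀ κ, κ₁ ≤ κ → ∃ (k r : ℕ → ℕ) (E : ∀ j, Fin (r j) → Finset (Fin (k j)))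
        (c : ∀ j, Fin (r j) → ℂ),
        (∀ j, 0 < k j ∧ IsTriple S (E j) (c j) ∧ StEq f (κ + j) (Phi 24⁻¹ (E j) (c j)) ∧
          ((∃ b : Polynomial ℂ, b ≠ 0 ∧ IsBFunction f b) → MinExp N (Phi 24⁻¹ (E j) (c j)))) ∧
        ((∀ j < 4, StrongOn (Phi 24⁻¹ (E j) (c j)) Set.univ) → StrongOn f Set.univ) := by
    intro n f hf hfS
    obtain ⟨κ₁, h⟩ := exists_phis S hS N n f hf hfS
    refine ⟨κ₁, fun κ hκ => ?_⟩
    choose k r E c h1 using fun j : ℕ => h (κ + j) (hκ.trans (Nat.le_add_right κ j))
    exact ⟨k, r, E, c, h1, StEq.four hf fun j => (h1 j).2.2.1⟩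
  refine ⟨key, ?_, ?_⟩
  · intro h k r E c hk hc _
    refine h _ _ (Phi_deg inv24 hk E c) ?_ (Phi_span inv24 hS hc)
    rw [Phi_eval]
    simp
  · intro h n f hf _ hfS
    by_cases hb : ∃ b : Polynomial ℂ, b ≠ 0 ∧ IsBFunction f b
    · obtain ⟨κ₁, h3⟩ := key n f hf hfS
      obtain ⟨k, r, E, c, h4, h5⟩ := h3 κ₁ le_rfl
      exact h5 fun j _ => h _ _ _ _ (h4 j).1 (h4 j).2.1 ((h4 j).2.2.2 hb)
    · intro s₀ _ b hb'
      by_contra hne
      exact hb ⟨b, fun h0 => hne (by rw [h0, Polynomial.eval_zero]), hb'⟩

end Pool.Agent.Results.MP_b07157_ag.TripleSystems
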